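import Pool.Agent.U166.GS.Even
import Pool.Agent.TH669.AD.Fin

/-!
# Vertex-transitive graphs without a given even cycle: the density of the numbers of vertices
-/

set_option autoImplicit false

namespace Pool.Agent.U166.GS

open Finset SimpleGraph
open Pool.Agent.TH669.AD (big)
open Pool.Agent.R85.EvenOrb (Pair cst)

/-- `Dense k c n`: there is a connected graph with `n` vertices, without `C_{2k}`, with at least
`c n ^ (1 + 1 / k)` edges, regular of degree `d`, with a transitive group of automorphisms in the class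
`Sel d`. -/
def Dense (k : ℕ) (c : ℝ) (n : ℕ) : Prop :=
  ∃ (X : SimpleGraph (Fin n)) (Γ : Subgroup (X ≃g X)) (d : ℕ), X.Connected ∧
    (cycleGraph (2 * k)).Free X ∧ c * (n : ℝ) ^ (1 + 1 / (k : ℝ)) ≤ X.edgeSet.ncard ∧
    (∀ v, (X.neighborSet v).ncard = d) ∧ Sel d Γ ∧ ∀ u v : Fin n, ∃ b ∈ Γ, b u = v

theorem two_edges {n d : ℕ} (X : SimpleGraph (Fin n)) (hd : ∀ v, (X.neighborSet v).ncard = d) :
    2 * X.edgeSet.ncard = n * d := by
  classical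
  have h := X.sum_degrees_eq_twice_card_edges
  have h1 : ∀ v, X.degree v = d := by
    intro v
    rw [← hd v, ← SimpleGraph.card_neighborSet_eq_degree, Set.ncard_eq_toFinset_card',
      Set.toFinset_card]
  rw [Finset.sum_congr rfl (fun v _ => h1 v)] at h
  simp only [Finset.sum_const, Finset.card_univ, Fintype.card_fin, smul_eq_mul] at h
  rw [h, ← SimpleGraph.coe_edgeFinset, Set.ncard_coe_finset]

/-- a good number of vertices: the numeric criterion -/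
theorem not_dense {k ℓ : ℕ} (hk : Pair k ℓ) {c U T : ℝ} {n z₀ z₁ : ℕ} (hn : 1 ≤ n)
    (hsq : ∀ p : ℕ, p.Prime → z₀ < p → ¬ p ^ 2 ∣ n)
    (hcong : ∀ p : ℕ, p.Prime → z₀ < p → ∀ d, p * d ∣ n → d ≡ 1 [MOD p] → d = 1)
    (hU : (n : ℝ) ≤ U * ((∏ p ∈ big z₁ n, p : ℕ) : ℝ))
    (hT : T ≤ 2 * c * (n : ℝ) ^ (1 / (k : ℝ))) (hT0 : 0 < T) (hz₀ : (z₀ : ℝ) ≤ T)
    (h1 : 2 ^ ℓ * (cst k ℓ : ℝ) * U < T ^ ℓ)
    (h2 : 2 ^ ℓ * (cst k ℓ : ℝ) * n < ((z₁ : ℝ) + 1) ^ ℓ) : ¬ Dense k c n := by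
  rintro ⟨X, Γ, d, hconn, hX, he, hd, hΓ, htr⟩
  have hn0 : (0 : ℝ) < n := by exact_mod_cast hn
  have h2e := two_edges X hd
  have h2e' : 2 * (X.edgeSet.ncard : ℝ) = n * d := by exact_mod_cast h2e
  have hdT : T ≤ d := by
    refine hT.trans ?_
    have h3 : c * (n : ℝ) ^ (1 + 1 / (k : ℝ)) = n * (c * (n : ℝ) ^ (1 / (k : ℝ))) := by
      rw [Real.rpow_add hn0, Real.rpow_one]; ring
    rw [h3] at he
    have h4 : (n : ℝ) * (2 * c * (n : ℝ) ^ (1 / (k : ℝ))) ≤ n * d := by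
      calc (n : ℝ) * (2 * c * (n : ℝ) ^ (1 / (k : ℝ))) = 2 * (n * (c * (n : ℝ) ^ (1 / (k : ℝ)))) := by
            ring
        _ ≤ 2 * (X.edgeSet.ncard : ℝ) := by linarith
        _ = n * d := h2e'
    exact le_of_mul_le_mul_left h4 hn0
  have hz₀d : z₀ ≤ d := by exact_mod_cast hz₀.trans hdT
  have v₀ : Fin n := ⟨0, hn⟩
  have horb : n = {u : Fin n | ∃ b ∈ Γ, b v₀ = u}.ncard := by
    have : {u : Fin n | ∃ b ∈ Γ, b v₀ = u} = Set.univ := by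
      ext u
      simp only [Set.mem_ofPred_eq, Set.mem_univ, iff_true]
      exact htr v₀ u
    rw [this, Set.ncard_univ, Nat.card_eq_fintype_card, Fintype.card_fin]
  have hcore := even_core k ℓ hk X hconn (fun v => (hd v).le) hX Γ hΓ v₀ n horb
    (fun p hp h => hsq p hp (lt_of_le_of_lt hz₀d h))
    (fun p hp h => hcong p hp (lt_of_le_of_lt hz₀d h))
  rw [Nat.card_eq_fintype_card, Fintype.card_fin] at hcore
  set P : ℕ := ∏ p ∈ big d n, p with hP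
  have hP1 : 1 ≤ P := Finset.one_le_prod' fun p hp =>
    (Nat.prime_of_mem_primeFactors (mem_filter.1 hp).1).one_lt.le
  have hP1' : (1 : ℝ) ≤ P := by exact_mod_cast hP1
  have hcore' : (P : ℝ) * (d : ℝ) ^ ℓ ≤ 2 ^ ℓ * (cst k ℓ : ℝ) * n := by
    have h3 : (P : ℝ) * (X.edgeSet.ncard : ℝ) ^ ℓ ≤ cst k ℓ * (n : ℝ) ^ (ℓ + 1) := by
      exact_mod_cast hcore
    have h4 : (X.edgeSet.ncard : ℝ) = n * d / 2 := by linarith
    rw [h4, div_pow, mul_pow] at h3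
    have h5 : (0 : ℝ) < (n : ℝ) ^ ℓ := by positivity
    have h6 : (n : ℝ) ^ ℓ * ((P : ℝ) * (d : ℝ) ^ ℓ) ≤ (n : ℝ) ^ ℓ * (2 ^ ℓ * (cst k ℓ : ℝ) * n) := by
      have h7 : (P : ℝ) * ((n : ℝ) ^ ℓ * (d : ℝ) ^ ℓ / 2 ^ ℓ) * 2 ^ ℓ ≤
          cst k ℓ * (n : ℝ) ^ (ℓ + 1) * 2 ^ ℓ := mul_le_mul_of_nonneg_right h3 (by positivity)
      calc (n : ℝ) ^ ℓ * ((P : ℝ) * (d : ℝ) ^ ℓ)
          = (P : ℝ) * ((n : ℝ) ^ ℓ * (d : ℝ) ^ ℓ / 2 ^ ℓ) * 2 ^ ℓ := by field_simp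
        _ ≤ cst k ℓ * (n : ℝ) ^ (ℓ + 1) * 2 ^ ℓ := h7
        _ = _ := by rw [pow_succ]; ring
    exact le_of_mul_le_mul_left h6 h5
  have hd0 : (0 : ℝ) ≤ d := Nat.cast_nonneg d
  rcases Nat.lt_or_ge z₁ d with hz | hz
  · have h3 : ((z₁ : ℝ) + 1) ^ ℓ ≤ (d : ℝ) ^ ℓ := by
      refine pow_le_pow_left₀ (by positivity) ?_ ℓ
      exact_mod_cast hz
    have h4 : (d : ℝ) ^ ℓ ≤ (P : ℝ) * (d : ℝ) ^ ℓ := by
      have : 0 ≤ (d : ℝ) ^ ℓ := by positivity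
      nlinarith
    linarith
  · have h3 : (∏ p ∈ big z₁ n, p) ≤ P := by
      refine Finset.prod_le_prod_of_subset_of_one_le' ?_ ?_
      · intro p hp
        obtain ⟨h4, h5⟩ := mem_filter.1 hp
        exact mem_filter.2 ⟨h4, lt_of_le_of_lt hz h5⟩
      · intro p hp _
        exact (Nat.prime_of_mem_primeFactors (mem_filter.1 hp).1).one_lt.le
    have hU0 : 0 ≤ U := by
      by_contra hneg
      push Not at hneg
      have h4 : U * ((∏ p ∈ big z₁ n, p : ℕ) : ℝ) ≤ 0 :=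
        mul_nonpos_of_nonpos_of_nonneg hneg.le (Nat.cast_nonneg _)
      linarith
    have h4 : (n : ℝ) ≤ U * P :=
      hU.trans (mul_le_mul_of_nonneg_left (by exact_mod_cast h3) hU0)
    have hC0 : (0 : ℝ) ≤ 2 ^ ℓ * (cst k ℓ : ℝ) := by positivity
    have h5 : (P : ℝ) * (d : ℝ) ^ ℓ ≤ P * (2 ^ ℓ * (cst k ℓ : ℝ) * U) := by
      calc (P : ℝ) * (d : ℝ) ^ ℓ ≤ 2 ^ ℓ * (cst k ℓ : ℝ) * n := hcore'
        _ ≤ 2 ^ ℓ * (cst k ℓ : ℝ) * (U * P) := mul_le_mul_of_nonneg_left h4 hC0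
        _ = _ := by ring
    have h6 : (d : ℝ) ^ ℓ ≤ 2 ^ ℓ * (cst k ℓ : ℝ) * U := le_of_mul_le_mul_left h5 (by linarith)
    have h7 : T ^ ℓ ≤ (d : ℝ) ^ ℓ := pow_le_pow_left₀ hT0.le hdT ℓ
    linarith

open Filter in
theorem eventually_params (k : ℕ) (hk : 1 ≤ k) (q K₁ K₂ : ℝ) (hq : 0 < q) :
    ∀ᶠ x : ℝ in atTop, (k : ℝ) ≤ x ∧ 10 * k * Real.log 4 ≤ Real.log x ∧ K₁ < x ^ (1 / 20 : ℝ) ∧
      K₂ < x ^ (1 / 4 : ℝ) ∧ 2 * k * (2 + Real.log x) ≤ q * x ^ (1 / (k : ℝ)) ∧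
      q ≤ x ^ (1 / (k : ℝ)) := by
  have hk0 : (0 : ℝ) < k := by exact_mod_cast hk
  have hr : (0 : ℝ) < 1 / (k : ℝ) := by positivity
  have h1 := eventually_ge_atTop (k : ℝ)
  have h2 := Real.tendsto_log_atTop.eventually_ge_atTop (10 * k * Real.log 4)
  have h3 := (tendsto_rpow_atTop (show (0 : ℝ) < 1 / 20 by norm_num)).eventually_gt_atTop K₁
  have h4 := (tendsto_rpow_atTop (show (0 : ℝ) < 1 / 4 by norm_num)).eventually_gt_atTop K₂
  have h5 := (tendsto_rpow_atTop hr).eventually_ge_atTop (8 * k / q)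
  have h6 := (isLittleO_log_rpow_atTop hr).bound (show (0 : ℝ) < q / (4 * k) by positivity)
  have h8 := (tendsto_rpow_atTop hr).eventually_ge_atTop q
  filter_upwards [h1, h2, h3, h4, h5, h6, eventually_ge_atTop (1 : ℝ), h8] with x a1 a2 a3 a4 a5 a6 a7 a8
  refine ⟨a1, a2, a3, a4, ?_, a8⟩
  have hx : 0 ≤ x ^ (1 / (k : ℝ)) := by positivity
  have hl : 0 ≤ Real.log x := Real.log_nonneg a7
  rw [Real.norm_of_nonneg hl, Real.norm_of_nonneg hx] at a6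
  rw [div_le_iff₀ hq] at a5
  have b1 : 2 * k * Real.log x ≤ q / 2 * x ^ (1 / (k : ℝ)) := by
    calc 2 * k * Real.log x ≤ 2 * k * (q / (4 * k) * x ^ (1 / (k : ℝ))) :=
          mul_le_mul_of_nonneg_left a6 (by positivity)
      _ = q / 2 * x ^ (1 / (k : ℝ)) := by field_simp; ring
  nlinarith

theorem card_small (x k : ℕ) (hk : 1 ≤ k) :
    ((Finset.Icc 1 x).filter (fun n : ℕ => (n : ℝ) ≤ x / k)).card ≤ (x : ℝ) / k := by
  have hk0 : (0 : ℝ) < k := by exact_mod_cast hk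
  have h1 : ((Finset.Icc 1 x).filter (fun n : ℕ => (n : ℝ) ≤ x / k)) ⊆ Finset.Icc 1 (x / k) := by
    intro n hn
    obtain ⟨h2, h3⟩ := mem_filter.1 hn
    rw [Finset.mem_Icc] at h2 ⊢
    refine ⟨h2.1, (Nat.le_div_iff_mul_le (by omega)).2 ?_⟩
    rw [le_div_iff₀ hk0] at h3
    exact_mod_cast h3
  have h2 := Finset.card_le_card h1
  rw [Nat.card_Icc, Nat.add_sub_cancel] at h2
  calc (((Finset.Icc 1 x).filter (fun n : ℕ => (n : ℝ) ≤ x / k)).card : ℝ) ≤ ((x / k : ℕ) : ℝ) := by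
        exact_mod_cast h2
    _ ≤ x / k := Nat.cast_div_le

theorem exists_pair (k : ℕ) (hk : 16 ≤ k) : ∃ ℓ : ℕ, Pair k ℓ ∧ k ≤ 4 * ℓ := by
  have h : k % 3 = 0 ∨ k % 3 = 1 ∨ k % 3 = 2 := by omega
  rcases h with h | h | h
  · exact ⟨k / 3, Or.inr ⟨by omega, 0, by omega, by omega⟩, by omega⟩
  · exact ⟨(k - 4) / 3, Or.inr ⟨by omega, 2, by omega, by omega⟩, by omega⟩
  · exact ⟨(k - 2) / 3, Or.inr ⟨by omega, 1, by omega, by omega⟩, by omega⟩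

theorem density : ∃ A : ℝ, ∀ k : ℕ, 1 ≤ k → ∀ c : ℝ, 0 < c → ∃ N : ℕ, ∀ x : ℕ, N ≤ x →
    ({n : ℕ | 1 ≤ n ∧ n ≤ x ∧ Dense k c n}.ncard : ℝ) ≤ A / k * x := by
  classical
  refine ⟨53, fun k hk c hc => ?_⟩
  have hk0 : (0 : ℝ) < k := by exact_mod_cast hk
  rcases Nat.lt_or_ge k 16 with hk16 | hk16
  · refine ⟨0, fun x _ => ?_⟩
    have h1 : {n : ℕ | 1 ≤ n ∧ n ≤ x ∧ Dense k c n}.ncard ≤ x := by
      have h2 : {n : ℕ | 1 ≤ n ∧ n ≤ x ∧ Dense k c n} ⊆ ((Finset.Icc 1 x : Finset ℕ) : Set ℕ) := by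
        rintro n ⟨a, b, -⟩
        exact Finset.mem_coe.2 (Finset.mem_Icc.2 ⟨a, b⟩)
      have h3 := Set.ncard_le_ncard h2 (Finset.finite_toSet _)
      rwa [Set.ncard_coe_finset, Nat.card_Icc, Nat.add_sub_cancel] at h3
    have h2 : (1 : ℝ) ≤ 53 / k := by
      rw [le_div_iff₀ hk0]
      have : (k : ℝ) ≤ 16 := by exact_mod_cast hk16.le
      linarith
    have hx0 : (0 : ℝ) ≤ x := Nat.cast_nonneg x
    calc ({n : ℕ | 1 ≤ n ∧ n ≤ x ∧ Dense k c n}.ncard : ℝ) ≤ x := by exact_mod_cast h1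
      _ ≤ 53 / k * x := by nlinarith
  obtain ⟨ℓ, hpair, hkℓ⟩ := exists_pair k hk16
  set q : ℝ := 2 * c * ((1 / (k : ℝ)) ^ (1 / (k : ℝ))) with hq
  have hq0 : 0 < q := by positivity
  set Cc : ℝ := 2 ^ ℓ * (cst k ℓ : ℝ) with hCc
  have hCc0 : 0 ≤ Cc := by positivity
  have hev := (tendsto_natCast_atTop_atTop (R := ℝ)).eventually
    (eventually_params k hk q (Cc * (k : ℝ) ^ (1 / 4 : ℝ) / (2 * c) ^ ℓ) Cc hq0)
  obtain ⟨N, hN⟩ := Filter.eventually_atTop.1 hev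
  refine ⟨max N 2, fun x hx => ?_⟩
  obtain ⟨hxk, hxlog, hx20, hx4, hxT, hxq⟩ := hN x ((le_max_left _ _).trans hx)
  have hx2 : 2 ≤ x := (le_max_right _ _).trans hx
  have hx0 : (0 : ℝ) < x := by exact_mod_cast (by omega : 0 < x)
  have hx1 : (1 : ℝ) ≤ x := by exact_mod_cast (by omega : 1 ≤ x)
  have hlog0 : 0 < Real.log x := Real.log_pos (by exact_mod_cast (by omega : 1 < x))
  have hℓk : (1 / 4 : ℝ) ≤ ℓ / k := by
    rw [div_le_div_iff₀ (by norm_num) hk0]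
    have : (k : ℝ) ≤ 4 * ℓ := by exact_mod_cast hkℓ
    linarith
  set T : ℝ := 2 * c * ((x : ℝ) / k) ^ (1 / (k : ℝ)) with hT
  have hTq : T = q * (x : ℝ) ^ (1 / (k : ℝ)) := by
    rw [hT, hq, div_eq_mul_one_div (x : ℝ) (k : ℝ), Real.mul_rpow hx0.le (by positivity)]
    ring
  rw [← hTq] at hxT
  have hT4 : 4 ≤ T := by
    have : (1 : ℝ) ≤ k := by exact_mod_cast hk
    nlinarith
  have hT0 : 0 < T := by linarith
  set z₀ : ℕ := ⌊T⌋₊ with hz₀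
  have hz₀T : (z₀ : ℝ) ≤ T := Nat.floor_le hT0.le
  have hz₀1 : T / 2 ≤ z₀ := by
    have := Nat.lt_floor_add_one T
    linarith
  have hz₀0 : 0 < z₀ := by
    have : (0 : ℝ) < z₀ := by linarith
    exact_mod_cast this
  set Z : ℝ := (x : ℝ) ^ (5 / (k : ℝ)) with hZ
  have hZ1 : 1 ≤ Z := Real.one_le_rpow hx1 (by positivity)
  set z₁ : ℕ := ⌊Z⌋₊ with hz₁
  have hz₁Z : (z₁ : ℝ) ≤ Z := Nat.floor_le (by linarith)
  have hz₁1 : 1 ≤ z₁ := Nat.one_le_floor_iff _ |>.2 hZ1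
  set U : ℝ := (x : ℝ) ^ (1 / 5 : ℝ) with hU
  have hU1 : 1 < U := Real.one_lt_rpow (by exact_mod_cast (by omega : 1 < x)) (by norm_num)
  have hlogU : Real.log U = 1 / 5 * Real.log x := by rw [hU, Real.log_rpow hx0]
  have hlogU0 : 0 < Real.log U := by rw [hlogU]; positivity
  -- the numeric conditions
  have hcond1 : Cc * U < T ^ ℓ := by
    have h1 : (2 * c) ^ ℓ * ((x : ℝ) / k) ^ (1 / 4 : ℝ) ≤ T ^ ℓ := by
      have hTℓ : T ^ ℓ = (2 * c) ^ ℓ * (((x : ℝ) / k) ^ (1 / (k : ℝ))) ^ ℓ := by rw [hT]; exact mul_pow _ _ _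
      rw [hTℓ]
      refine mul_le_mul_of_nonneg_left ?_ (by positivity)
      have hxk0 : (0 : ℝ) ≤ (x : ℝ) / k := by positivity
      rw [← Real.rpow_natCast (((x : ℝ) / k) ^ (1 / (k : ℝ))) ℓ, ← Real.rpow_mul hxk0]
      refine Real.rpow_le_rpow_of_exponent_le ?_ ?_
      · rwa [le_div_iff₀ hk0, one_mul]
      · rw [one_div_mul_eq_div]
        exact hℓk
    refine lt_of_lt_of_le ?_ h1
    rw [Real.div_rpow hx0.le hk0.le]
    have h2 : (x : ℝ) ^ (1 / 4 : ℝ) = U * (x : ℝ) ^ (1 / 20 : ℝ) := by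
      rw [hU, ← Real.rpow_add hx0]
      norm_num
    have hk4 : (0 : ℝ) < (k : ℝ) ^ (1 / 4 : ℝ) := by positivity
    have hcℓ : (0 : ℝ) < (2 * c) ^ ℓ := by positivity
    rw [h2, ← mul_div_assoc, lt_div_iff₀ hk4]
    have hx20' := (div_lt_iff₀ hcℓ).1 hx20
    have hU0 : 0 < U := by linarith
    calc Cc * U * (k : ℝ) ^ (1 / 4 : ℝ) = U * (Cc * (k : ℝ) ^ (1 / 4 : ℝ)) := by ring
      _ < U * ((x : ℝ) ^ (1 / 20 : ℝ) * (2 * c) ^ ℓ) := mul_lt_mul_of_pos_left hx20' hU0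
      _ = _ := by ring
  have hcond2 : Cc * x < ((z₁ : ℝ) + 1) ^ ℓ := by
    have h1 : Z ^ ℓ ≤ ((z₁ : ℝ) + 1) ^ ℓ :=
      pow_le_pow_left₀ (by linarith) (Nat.lt_floor_add_one Z).le ℓ
    refine lt_of_lt_of_le ?_ h1
    have h2 : (x : ℝ) ^ (5 / 4 : ℝ) ≤ Z ^ ℓ := by
      rw [hZ, ← Real.rpow_natCast ((x : ℝ) ^ (5 / (k : ℝ))) ℓ, ← Real.rpow_mul hx0.le]
      refine Real.rpow_le_rpow_of_exponent_le hx1 ?_
      have : 5 / (k : ℝ) * ℓ = 5 * (ℓ / k) := by ring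
      rw [this]
      linarith
    refine lt_of_lt_of_le ?_ h2
    have h3 : (x : ℝ) ^ (5 / 4 : ℝ) = (x : ℝ) ^ (1 / 4 : ℝ) * x := by
      rw [← Real.rpow_add_one hx0.ne']
      norm_num
    rw [h3]
    exact mul_lt_mul_of_pos_right hx4 hx0
  -- the exceptional sets
  set B1 := (Ioc 0 x).filter (fun n => ∃ p : ℕ, p.Prime ∧ z₀ < p ∧ p ^ 2 ∣ n) with hB1
  set B2 := (Ioc 0 x).filter (fun n => ∃ p d₁ d₂ : ℕ, p.Prime ∧ z₀ < p ∧ p * d₁ ∣ n ∧ 1 ≤ d₂ ∧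
      d₂ ≤ 1 ∧ d₁ * d₂ ≡ 1 [MOD p] ∧ d₁ * d₂ ≠ 1) with hB2
  set B3 := (Ioc 0 x).filter (fun n => (∀ p : ℕ, p.Prime → z₁ < p → ¬ p ^ 2 ∣ n) ∧
      U * ((∏ p ∈ big z₁ n, p : ℕ) : ℝ) < n) with hB3
  set B4 := (Finset.Icc 1 x).filter (fun n : ℕ => (n : ℝ) ≤ x / k) with hB4
  have hz01 : z₀ ≤ z₁ := by
    refine Nat.floor_le_floor ?_
    rw [hTq, hZ]
    have h1 : (0 : ℝ) < (x : ℝ) ^ (1 / (k : ℝ)) := by positivity
    calc q * (x : ℝ) ^ (1 / (k : ℝ)) ≤ (x : ℝ) ^ (1 / (k : ℝ)) * (x : ℝ) ^ (1 / (k : ℝ)) :=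
          mul_le_mul_of_nonneg_right hxq h1.le
      _ = (x : ℝ) ^ (2 / (k : ℝ)) := by
          rw [← Real.rpow_add hx0]
          congr 1
          ring
      _ ≤ (x : ℝ) ^ (5 / (k : ℝ)) := by
          refine Real.rpow_le_rpow_of_exponent_le hx1 ?_
          gcongr
          norm_num
  have hsub : {n : ℕ | 1 ≤ n ∧ n ≤ x ∧ Dense k c n} ⊆ ((B1 ∪ B2 ∪ B3 ∪ B4 : Finset ℕ) : Set ℕ) := by
    rintro n ⟨h1, h2, h3⟩
    have hn : n ∈ Ioc 0 x := mem_Ioc.2 ⟨h1, h2⟩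
    rw [mem_coe, mem_union, mem_union, mem_union]
    by_contra hcon
    push Not at hcon
    obtain ⟨⟨⟨hb1, hb2⟩, hb3⟩, hb4⟩ := hcon
    have hn4 : (x : ℝ) / k < n := by
      by_contra hh
      push Not at hh
      exact hb4 (mem_filter.2 ⟨Finset.mem_Icc.2 ⟨h1, h2⟩, hh⟩)
    have hsq : ∀ p : ℕ, p.Prime → z₀ < p → ¬ p ^ 2 ∣ n := fun p hp hz hd =>
      hb1 (mem_filter.2 ⟨hn, p, hp, hz, hd⟩)
    have hcong : ∀ p : ℕ, p.Prime → z₀ < p → ∀ d, p * d ∣ n → d ≡ 1 [MOD p] → d = 1 := by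
      intro p hp hz d hd hd1
      by_contra hne
      exact hb2 (mem_filter.2 ⟨hn, p, d, 1, hp, hz, hd, le_rfl, le_rfl, by simpa using hd1,
        by simpa using hne⟩)
    refine not_dense (z₁ := z₁) hpair h1 hsq hcong ?_ ?_ hT0 hz₀T hcond1 ?_ h3
    · by_contra hh
      push Not at hh
      exact hb3 (mem_filter.2 ⟨hn, fun p hp hz => hsq p hp (lt_of_le_of_lt hz01 hz), hh⟩)
    · rw [hT]
      refine mul_le_mul_of_nonneg_left ?_ (by positivity)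
      exact Real.rpow_le_rpow (by positivity) hn4.le (by positivity)
    · refine lt_of_le_of_lt ?_ hcond2
      exact mul_le_mul_of_nonneg_left (by exact_mod_cast h2) hCc0
  have hcard : ({n : ℕ | 1 ≤ n ∧ n ≤ x ∧ Dense k c n}.ncard : ℝ) ≤ B1.card + B2.card + B3.card + B4.card := by
    have h1 := Set.ncard_le_ncard hsub (Finset.finite_toSet _)
    rw [Set.ncard_coe_finset] at h1
    have h2 : (B1 ∪ B2 ∪ B3 ∪ B4).card ≤ B1.card + B2.card + B3.card + B4.card := by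
      refine (Finset.card_union_le _ _).trans ?_
      refine Nat.add_le_add_right ((Finset.card_union_le _ _).trans ?_) _
      exact Nat.add_le_add_right (Finset.card_union_le _ _) _
    exact_mod_cast h1.trans h2
  have c1 : (B1.card : ℝ) ≤ x / z₀ := Pool.Agent.TH669.AD.count1 x z₀ hz₀0
  have c2 : (B2.card : ℝ) ≤ x * (1 + Real.log x) / z₀ := by
    have h := Pool.Agent.TH669.AD.count2 x z₀ 1 hz₀0 one_pos
    rw [Nat.cast_one, one_pow, mul_one] at h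
    convert h using 3
  have c3 : (B3.card : ℝ) * Real.log U ≤ 2 * x * (Real.log z₁ + Real.log 4) := by
    have := Pool.Agent.TH669.AD.count3 x z₁ hz₁1 U hU1
    convert this using 3
  have c4 : (B4.card : ℝ) ≤ x / k := card_small x k hk
  have hz₀R : (0 : ℝ) < z₀ := by exact_mod_cast hz₀0
  have d12 : (x : ℝ) / z₀ + x * (1 + Real.log x) / z₀ ≤ x / k := by
    rw [← add_div, div_le_div_iff₀ hz₀R hk0]
    have : (k : ℝ) * (2 + Real.log x) ≤ z₀ := by linarith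
    nlinarith
  have d3 : (B3.card : ℝ) ≤ 51 / k * x := by
    have h1 : Real.log z₁ ≤ 5 / k * Real.log x := by
      have h2 : Real.log z₁ ≤ Real.log Z := Real.log_le_log (by exact_mod_cast hz₁1) hz₁Z
      rwa [hZ, Real.log_rpow hx0] at h2
    have h2 : Real.log 4 ≤ 1 / (10 * k) * Real.log x := by
      rw [one_div, inv_mul_eq_div, le_div_iff₀ (by positivity)]
      linarith
    have h3 : (B3.card : ℝ) * (1 / 5 * Real.log x) ≤ 2 * x * (51 / (10 * k) * Real.log x) := by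
      rw [← hlogU]
      refine c3.trans (mul_le_mul_of_nonneg_left ?_ (by positivity))
      have h4 : (51 / (10 * k) : ℝ) * Real.log x = 5 / k * Real.log x + 1 / (10 * k) * Real.log x := by
        field_simp
        ring
      rw [h4]
      linarith
    have h4 : (B3.card : ℝ) * (1 / 5 * Real.log x) ≤ (51 / k * x) * (1 / 5 * Real.log x) := by
      refine h3.trans (le_of_eq ?_)
      field_simp
      ring
    exact le_of_mul_le_mul_right h4 (by positivity)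
  calc ({n : ℕ | 1 ≤ n ∧ n ≤ x ∧ Dense k c n}.ncard : ℝ) ≤ B1.card + B2.card + B3.card + B4.card :=
        hcard
    _ ≤ x / k + 51 / k * x + x / k := by linarith
    _ = 53 / k * x := by ring

end Pool.Agent.U166.GS
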