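import Pool.Agent.U166.GS.Law
import Pool.Agent.R2.GL.LogForm

/-!
# Graphs with a group of automorphisms with abelian or smooth factors
-/

set_option autoImplicit false

namespace Pool.Agent.U166.GS

open Pool.Agent.H268R2.LB Finset

theorem card_dvd_of_free {A Ω : Type*} [Group A] [Finite A] [Finite Ω] [MulAction A Ω]
    (hfree : ∀ (a : A) (x : Ω), a • x = x → a = 1) : Nat.card A ∣ Nat.card Ω := by
  classical
  have e := MulAction.selfEquivSigmaOrbitsQuotientStabilizer A Ω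
  rw [Nat.card_congr e]
  have hQ : Finite (MulAction.orbitRel.Quotient A Ω) := Quotient.finite _
  have hst : ∀ ω : MulAction.orbitRel.Quotient A Ω,
      Nat.card (A ⧸ MulAction.stabilizer A ω.out) = Nat.card A := by
    intro ω
    have hbot : MulAction.stabilizer A ω.out = ⊥ := by
      rw [eq_bot_iff]
      intro a ha
      rw [Subgroup.mem_bot]
      exact hfree a _ ha
    rw [hbot]
    exact Nat.card_congr (QuotientGroup.quotientBot (G := A)).toEquiv
  have : Fintype (MulAction.orbitRel.Quotient A Ω) := Fintype.ofFinite _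
  rw [Nat.card_sigma, Finset.sum_congr rfl (fun ω _ => hst ω)]
  simp

theorem core {V : Type} [Fintype V] (X : SimpleGraph V) (hc : X.Connected) {y δ g : ℕ} (hg1 : 1 ≤ g)
    (hdeg : ∀ v, (X.neighborSet v).ncard ≤ y) (hδ : ∀ v, δ ≤ (X.neighborSet v).ncard)
    (hgirth : ∀ (v : V) (w : X.Walk v v), w.IsCycle → g ≤ w.length)
    (Γ : Subgroup (X ≃g X)) (hΓ : Built y Γ) (v : V)
    (hsq : ∀ p : ℕ, p.Prime → y < p → ¬ p ^ 2 ∣ {u : V | ∃ b ∈ Γ, b v = u}.ncard)
    (a : ℕ)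
    (hat : a ∣ {u : V | ∃ b ∈ Γ, b v = u}.ncard) (ha : Rough y a) (R : ℕ) (hR : 24 * R < g) :
    a * (δ - 1) ^ R ≤ 4 ^ Nat.size R * Fintype.card V := by
  classical
  have hfin : Finite (X ≃g X) := Finite.of_injective (fun a : X ≃g X => (a : V → V))
    DFunLike.coe_injective
  let act : MulAction (X ≃g X) V := RelIso.applyMulAction
  have hne : Nonempty V := hc.nonempty
  obtain ⟨H, hH1, hH2⟩ := hΓ.hall inferInstance
  have hfree : ∀ (b : H) (x : V), b • x = x → b = 1 := by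
    intro b x hb
    have h1 : ((b : Γ) : X ≃g X) = 1 := by
      refine eq_one_of_fix hc ((b : Γ) : X ≃g X) (orderOf_pos _) ?_ hdeg (v := x) hb
      rw [Subgroup.orderOf_coe, Subgroup.orderOf_coe]
      exact hH1.of_dvd (orderOf_dvd_natCard b)
    exact Subtype.ext (Subtype.ext h1)
  have horb : {u : V | ∃ b ∈ Γ, b v = u} = MulAction.orbit Γ v := by
    ext u
    constructor
    · rintro ⟨b, hb, rfl⟩
      exact ⟨⟨b, hb⟩, rfl⟩
    · rintro ⟨b, rfl⟩
      exact ⟨b.1, b.2, rfl⟩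
  have hdvd : Nat.card H ∣ {u : V | ∃ b ∈ Γ, b v = u}.ncard := by
    rw [horb, ← Nat.card_coe_set_eq]
    refine card_dvd_of_free (A := H) (Ω := MulAction.orbit Γ v) fun b x hb => hfree b x.1 ?_
    exact congrArg Subtype.val hb
  have hsf : Squarefree (Nat.card H) := by
    rw [Nat.squarefree_iff_prime_squarefree]
    intro p hp hpp
    have h1 := hH1 p hp ((Dvd.intro _ rfl).trans hpp)
    refine hsq p hp h1 ?_
    rw [pow_two]
    exact hpp.trans hdvd
  have hZ : IsZGroup H := IsZGroup.of_squarefree hsf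
  have h1 : a ∣ Nat.card Γ := by
    refine hat.trans ?_
    rw [horb, ← MulAction.index_stabilizer]
    exact Subgroup.index_dvd_card _
  have h2 : a ∣ Nat.card H := by
    rw [← H.card_mul_index] at h1
    exact (Nat.Coprime.symm (coprime_of hH2 ha)).dvd_of_dvd_mul_right h1
  have h3 : a ≤ Nat.card H := Nat.le_of_dvd Nat.card_pos h2
  have : Fintype H := Fintype.ofFinite _
  have hδ' : ∀ x, δ ≤ #{u | X.Adj x u} := by
    intro x
    refine (hδ x).trans (le_of_eq ?_)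
    rw [← Set.ncard_coe_finset]
    congr 1
    ext u
    simp [SimpleGraph.mem_neighborSet]
  have h4 := min_degree_bound (G := X) (A := H) (M := g - 1) (N := 3) (L := 12) (R := R) (δ := δ)
    (fun v p hp => by have := hgirth v p hp; omega)
    (fun b x u h => ((b : Γ) : X ≃g X).map_adj_iff.2 h) hfree altLaw_z (by omega) hδ'
  rw [← Nat.card_eq_fintype_card] at h4
  calc a * (δ - 1) ^ R ≤ Nat.card H * (δ - 1) ^ R := Nat.mul_le_mul_right _ h3
    _ ≤ _ := by simpa using h4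

/-- the three forms of the bound -/
theorem three_forms : ∃ C : ℝ, ∀ (n δ g a : ℕ), 3 ≤ δ → 1 ≤ g → 1 ≤ a → a ≤ n →
    (∀ R : ℕ, 24 * R < g → a * (δ - 1) ^ R ≤ 4 ^ Nat.size R * n) →
    (g : ℝ) ≤ C * Real.log (2 * n / a) ∧
    (∀ R : ℕ, 24 * R < g → (a : ℝ) * ((δ : ℝ) - 1) ^ R ≤ 4 ^ Nat.size R * n) ∧
    ∀ γ : ℝ, 0 < γ → (n : ℝ) ≤ ((δ : ℝ) - 1) ^ (γ * g) →
      (a : ℝ) ≤ 4 ^ Nat.size ((g - 1) / 24) * ((δ : ℝ) - 1) * (n : ℝ) ^ (1 - 1 / (24 * γ)) := by
  obtain ⟨C, hC⟩ := Pool.Agent.R2.GL.log_form 4 24 (by norm_num)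
  refine ⟨C, fun n δ g a hδ hg ha han h => ?_⟩
  have ha0 : (0 : ℝ) < a := by exact_mod_cast ha
  have hδ1 : ((δ - 1 : ℕ) : ℝ) = (δ : ℝ) - 1 := by
    rw [Nat.cast_sub (by omega)]; norm_num
  have hb : ∀ R : ℕ, 24 * R < g → (a : ℝ) * ((δ : ℝ) - 1) ^ R ≤ 4 ^ Nat.size R * n := by
    intro R hR
    rw [← hδ1]
    exact_mod_cast h R hR
  refine ⟨?_, hb, ?_⟩
  · refine hC g (2 * n / a) ?_ ?_
    · rw [le_div_iff₀ ha0]
      have : (a : ℝ) ≤ n := by exact_mod_cast han
      linarith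
    · intro R hR
      have h1 := hb R (by omega)
      have hδ2 : (2 : ℝ) ≤ (δ : ℝ) - 1 := by
        have : (3 : ℝ) ≤ δ := by exact_mod_cast hδ
        linarith
      have h2 : (2 : ℝ) ^ R ≤ ((δ : ℝ) - 1) ^ R := pow_le_pow_left₀ (by norm_num) hδ2 R
      have h3 : (4 : ℝ) ^ Nat.size R ≤ 4 ^ Nat.size (R + 1) :=
        pow_le_pow_right₀ (by norm_num) (Nat.size_le_size (Nat.le_succ R))
      have hn0 : (0 : ℝ) ≤ n := Nat.cast_nonneg n
      have h4 : (a : ℝ) * 2 ^ R ≤ 4 ^ Nat.size (R + 1) * n :=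
        (mul_le_mul_of_nonneg_left h2 ha0.le).trans (h1.trans (mul_le_mul_of_nonneg_right h3 hn0))
      have h5 : (2 : ℝ) ^ R ≤ 4 ^ Nat.size (R + 1) * n / a := by
        rw [le_div_iff₀ ha0, mul_comm]
        exact h4
      refine h5.trans ?_
      have h6 : (4 : ℝ) ^ Nat.size (R + 1) * (2 * n / a) = 2 * (4 ^ Nat.size (R + 1) * n / a) := by ring
      push_cast
      rw [h6]
      have : 0 ≤ (4 : ℝ) ^ Nat.size (R + 1) * n / a := by positivity
      linarith
  · intro γ hγ hsmall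
    have h1 := power_form (L := 12) (K := 4) (by norm_num) hδ hg (ha.trans han)
      (h ((g - 1) / (2 * 12)) (by omega)) hγ hsmall
    norm_num at h1
    norm_num
    exact h1

end Pool.Agent.U166.GS
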