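import Pool.Agent.U166.GS.Sel
import Pool.Agent.U166.GS.Main
import Pool.Agent.R85.EvenOrb

/-!
# Even cycles: a large cyclic group which acts freely
-/

set_option autoImplicit false

namespace Pool.Agent.U166.GS

open Finset SimpleGraph
open Pool.Agent.TH669.AD (big NC)

/-- an automorphism whose powers act freely, of order the product of the large primes of an orbit length -/
theorem exists_cyclic {V : Type} [Finite V] (X : SimpleGraph V) (hc : X.Connected) {y : ℕ}
    (hdeg : ∀ v, (X.neighborSet v).ncard ≤ y) (Γ : Subgroup (X ≃g X)) (hΓ : Sel y Γ) (v : V) (t : ℕ)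
    (ht : t = {u : V | ∃ b ∈ Γ, b v = u}.ncard)
    (hsq : ∀ p : ℕ, p.Prime → y < p → ¬ p ^ 2 ∣ t)
    (hcong : ∀ p : ℕ, p.Prime → y < p → ∀ d, p * d ∣ t → d ≡ 1 [MOD p] → d = 1) :
    ∃ c : Γ, orderOf c = ∏ p ∈ big y t, p ∧
      ∀ a ∈ Subgroup.zpowers c, ∀ u : V, (a : X ≃g X) u = u → a = 1 := by
  classical
  have hfin : Finite (X ≃g X) := Finite.of_injective (fun a : X ≃g X => (a : V → V))
    DFunLike.coe_injective
  let act : MulAction (X ≃g X) V := RelIso.applyMulAction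
  obtain ⟨H, hH1, hH2⟩ := hΓ.hall inferInstance
  have hfree : ∀ (b : Γ), b ∈ H → ∀ x : V, (b : X ≃g X) x = x → b = 1 := by
    intro b hbH x hb
    have h1 : (b : X ≃g X) = 1 := by
      refine eq_one_of_fix hc (b : X ≃g X) (orderOf_pos _) ?_ hdeg (v := x) hb
      rw [Subgroup.orderOf_coe]
      have h2 : orderOf b ∣ Nat.card H := by
        have := orderOf_dvd_natCard (⟨b, hbH⟩ : H)
        rwa [← Subgroup.orderOf_coe] at this
      exact hH1.of_dvd h2
    exact Subtype.ext h1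
  have horb : {u : V | ∃ b ∈ Γ, b v = u} = MulAction.orbit Γ v := by
    ext u
    constructor
    · rintro ⟨b, hb, rfl⟩
      exact ⟨⟨b, hb⟩, rfl⟩
    · rintro ⟨b, rfl⟩
      exact ⟨b.1, b.2, rfl⟩
  have hdvd : Nat.card H ∣ t := by
    rw [ht, horb, ← Nat.card_coe_set_eq]
    refine card_dvd_of_free (A := H) (Ω := MulAction.orbit Γ v) fun b x hb => ?_
    have := hfree b.1 b.2 x.1 (congrArg Subtype.val hb)
    exact Subtype.ext this
  have ht0 : t ≠ 0 := by
    rw [ht]
    have : 0 < {u : V | ∃ b ∈ Γ, b v = u}.ncard := by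
      rw [Set.ncard_pos (Set.toFinite _)]
      exact ⟨v, 1, Γ.one_mem, rfl⟩
    omega
  have htΓ : t ∣ Nat.card Γ := by
    rw [ht, horb, ← MulAction.index_stabilizer]
    exact Subgroup.index_dvd_card _
  have hNC : ∀ p ∈ big y t, ∃ g, NC H p g := by
    intro p hp
    obtain ⟨hp1, hyp⟩ := mem_filter.1 hp
    have hpp : p.Prime := Nat.prime_of_mem_primeFactors hp1
    have hpt : p ∣ t := Nat.dvd_of_mem_primeFactors hp1
    have h1 : p ∣ Nat.card H := by
      have h2 := hpt.trans htΓ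
      rw [← H.card_mul_index] at h2
      rcases hpp.dvd_mul.1 h2 with h | h
      · exact h
      · have := hH2 p hpp h
        omega
    obtain ⟨M, hM⟩ := h1
    refine NC.of_sylow H p hpp M hM ?_ ?_
    · intro hpM
      refine hsq p hpp hyp ?_
      rw [pow_two]
      exact (Nat.mul_dvd_mul_left p hpM).trans (hM ▸ hdvd)
    · intro d hd hd1
      exact hcong p hpp hyp d ((Nat.mul_dvd_mul_left p hd).trans (hM ▸ hdvd)) hd1
  obtain ⟨c, hc1, -⟩ := NC.exists_prod (G := H) (big y t)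
    (fun p hp => Nat.prime_of_mem_primeFactors (mem_filter.1 hp).1) hNC
  refine ⟨c, hc1.2.1, fun a ha u hu => ?_⟩
  exact hfree a ((Subgroup.zpowers_le.2 hc1.1) ha) u hu

/-- a rough divisor is at most the product of the large primes -/
theorem le_prod_big {y t a : ℕ} (ht : t ≠ 0) (hsq : ∀ p : ℕ, p.Prime → y < p → ¬ p ^ 2 ∣ t)
    (hat : a ∣ t) (ha : Rough y a) : a ≤ ∏ p ∈ big y t, p := by
  have ha0 : a ≠ 0 := fun h => ht (Nat.eq_zero_of_zero_dvd (h ▸ hat))
  have hsf : Squarefree a := by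
    rw [Nat.squarefree_iff_prime_squarefree]
    intro p hp hpp
    have h1 := ha p hp ((Dvd.intro _ rfl).trans hpp)
    refine hsq p hp h1 ?_
    rw [pow_two]
    exact hpp.trans hat
  rw [← Nat.prod_primeFactors_of_squarefree hsf]
  refine Finset.prod_le_prod_of_subset_of_one_le' ?_ ?_
  · intro p hp
    have hpp := Nat.prime_of_mem_primeFactors hp
    have hpa := Nat.dvd_of_mem_primeFactors hp
    exact mem_filter.2 ⟨Nat.mem_primeFactors.2 ⟨hpp, hpa.trans hat, ht⟩, ha p hpp hpa⟩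
  · intro p hp _
    exact (Nat.prime_of_mem_primeFactors (mem_filter.1 hp).1).one_lt.le

theorem even_core (k ℓ : ℕ) (hk : Pool.Agent.R85.EvenOrb.Pair k ℓ) {V : Type} [Finite V]
    (X : SimpleGraph V) (hc : X.Connected) {y : ℕ}
    (hdeg : ∀ v, (X.neighborSet v).ncard ≤ y) (hX : (cycleGraph (2 * k)).Free X)
    (Γ : Subgroup (X ≃g X)) (hΓ : Sel y Γ) (v : V) (t : ℕ)
    (ht : t = {u : V | ∃ b ∈ Γ, b v = u}.ncard)
    (hsq : ∀ p : ℕ, p.Prime → y < p → ¬ p ^ 2 ∣ t)
    (hcong : ∀ p : ℕ, p.Prime → y < p → ∀ d, p * d ∣ t → d ≡ 1 [MOD p] → d = 1) :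
    (∏ p ∈ big y t, p) * X.edgeSet.ncard ^ ℓ ≤
      Pool.Agent.R85.EvenOrb.cst k ℓ * Nat.card V ^ (ℓ + 1) := by
  have hfin : Finite (X ≃g X) := Finite.of_injective (fun a : X ≃g X => (a : V → V))
    DFunLike.coe_injective
  let act : MulAction (X ≃g X) V := RelIso.applyMulAction
  obtain ⟨c, hc1, hc2⟩ := exists_cyclic X hc hdeg Γ hΓ v t ht hsq hcong
  have h := Pool.Agent.R85.EvenOrb.zpowers_bound k ℓ hk V Γ c X (fun a ha u hu => hc2 a ha u hu)
    (fun a u w h => (a : X ≃g X).map_adj_iff.2 h) hX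
  rwa [Nat.card_zpowers, hc1] at h

end Pool.Agent.U166.GS
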