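import Pool.Agent.U166.GS.Dens

/-!
# Even cycles: the final form of the bound for one graph
-/

set_option autoImplicit false

namespace Pool.Agent.U166.GS

open Finset SimpleGraph
open Pool.Agent.TH669.AD (big)

theorem sel_of_solvable (y : ℕ) (G : Type) [Group G] [Finite G] (h : Group.IsSolvable G) : Sel y G :=
  (built_of_solvable y (Nat.card G) G rfl h).sel

theorem one_graph (k ℓ : ℕ) (hk : Pool.Agent.R85.EvenOrb.Pair k ℓ) :
    ∃ C : ℕ, ∀ (V : Type) [Fintype V] (X : SimpleGraph V) (y : ℕ), X.Connected →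
      (∀ v : V, (X.neighborSet v).ncard ≤ y) → (cycleGraph (2 * k)).Free X →
      ∀ Γ : Subgroup (X ≃g X), Sel y Γ →
      ∀ (v : V) (t a : ℕ), t = {u : V | ∃ b ∈ Γ, b v = u}.ncard →
      (∀ p : ℕ, p.Prime → y < p → ¬ p ^ 2 ∣ t) →
      (∀ p d : ℕ, p.Prime → y < p → p * d ∣ t → d ≡ 1 [MOD p] → d = 1) →
      a ∣ t → (∀ p : ℕ, p.Prime → p ∣ a → y < p) →
      a * X.edgeSet.ncard ^ ℓ ≤ C * Fintype.card V ^ (ℓ + 1) ∧
      ∀ c : ℝ, 0 < c → c * (Fintype.card V : ℝ) ^ (1 + 1 / (k : ℝ)) ≤ X.edgeSet.ncard →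
        (a : ℝ) ≤ C / c ^ ℓ * (Fintype.card V : ℝ) ^ (1 - (ℓ : ℝ) / (k : ℝ)) := by
  refine ⟨Pool.Agent.R85.EvenOrb.cst k ℓ, ?_⟩
  intro V _ X y hc hdeg hX Γ hΓ v t a ht hsq hcong hat ha
  have ht0 : t ≠ 0 := by
    rw [ht]
    have : 0 < {u : V | ∃ b ∈ Γ, b v = u}.ncard := by
      rw [Set.ncard_pos (Set.toFinite _)]
      exact ⟨v, 1, Γ.one_mem, rfl⟩
    omega
  have h1 := even_core k ℓ hk X hc hdeg hX Γ hΓ v t ht hsq
    (fun p hp hy d hd hd1 => hcong p d hp hy hd hd1)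
  have h2 := le_prod_big ht0 hsq hat ha
  have h3 : a * X.edgeSet.ncard ^ ℓ ≤
      Pool.Agent.R85.EvenOrb.cst k ℓ * Fintype.card V ^ (ℓ + 1) := by
    rw [← Nat.card_eq_fintype_card]
    exact (Nat.mul_le_mul_right _ h2).trans h1
  refine ⟨h3, fun c hc' he => ?_⟩
  have hn : 0 < Fintype.card V := Fintype.card_pos_iff.2 hc.nonempty
  have h4 : (a : ℝ) * (X.edgeSet.ncard : ℝ) ^ ℓ ≤
      1 * (Pool.Agent.R85.EvenOrb.cst k ℓ : ℝ) * (Fintype.card V : ℝ) ^ (ℓ + 1) := by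
    rw [one_mul]
    exact_mod_cast h3
  have h5 := Pool.Agent.R85.EvenOrb.real_form k ℓ a _ _ _ _ hk hn h4 c hc' he
  rwa [one_mul] at h5

end Pool.Agent.U166.GS
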