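import Mathlib

/-!
# Hall subgroups of groups with abelian or smooth factors
-/

set_option autoImplicit false

open scoped commutatorElement

namespace Pool.Agent.U166.GS

universe u

/-- `Built y G`: `G` is obtained from the trivial group by repeated extensions with kernels which are
commutative, or whose order has no prime factor larger than `y`. -/
inductive Built (y : ℕ) : (G : Type u) → [Group G] → Prop
  | triv (G : Type u) [Group G] (h : Subsingleton G) : Built y G
  | ext (G : Type u) [Group G] (N : Subgroup G) [N.Normal]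
      (hN : (∀ a ∈ N, ∀ b ∈ N, a * b = b * a) ∨ ∀ p : ℕ, p.Prime → p ∣ Nat.card N → p ≤ y)
      (h : Built y (G ⧸ N)) : Built y G

theorem Built.mono {y z : ℕ} (hyz : y ≤ z) {G : Type u} [Group G] (h : Built y G) : Built z G := by
  induction h with
  | triv G h => exact Built.triv G h
  | ext G N hN h ih =>
    exact Built.ext G N (hN.imp id fun h p hp hd => (h p hp hd).trans hyz) ih

/-- all prime factors are larger than `y` -/
def Rough (y n : ℕ) : Prop := ∀ p : ℕ, p.Prime → p ∣ n → y < p

/-- all prime factors are at most `y` -/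
def Smooth (y n : ℕ) : Prop := ∀ p : ℕ, p.Prime → p ∣ n → p ≤ y

theorem coprime_of {y a b : ℕ} (ha : Smooth y a) (hb : Rough y b) : Nat.Coprime a b :=
  Nat.Coprime.symm (Nat.coprime_of_dvd (fun p hp h1 h2 => by
    have := ha p hp h2
    have := hb p hp h1
    omega))

theorem Smooth.mul {y a b : ℕ} (ha : Smooth y a) (hb : Smooth y b) : Smooth y (a * b) :=
  fun p hp h => (hp.dvd_mul.1 h).elim (ha p hp) (hb p hp)

theorem Rough.mul {y a b : ℕ} (ha : Rough y a) (hb : Rough y b) : Rough y (a * b) :=
  fun p hp h => (hp.dvd_mul.1 h).elim (ha p hp) (hb p hp)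

theorem Rough.of_dvd {y a b : ℕ} (ha : Rough y a) (h : b ∣ a) : Rough y b :=
  fun p hp h1 => ha p hp (h1.trans h)

theorem Smooth.of_dvd {y a b : ℕ} (ha : Smooth y a) (h : b ∣ a) : Smooth y b :=
  fun p hp h1 => ha p hp (h1.trans h)

/-- a Hall subgroup for the primes larger than `y` -/
def HasHall (y : ℕ) (G : Type u) [Group G] : Prop :=
  ∃ H : Subgroup G, Rough y (Nat.card H) ∧ Smooth y H.index

/-- the lifting of a Hall subgroup over a normal subgroup of smooth order -/
theorem hall_lift {y : ℕ} {G : Type u} [Group G] [Finite G] (T K : Subgroup G) [T.Normal]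
    (hTK : T ≤ K) (hT : Smooth y (Nat.card T)) (hK : Rough y (T.relIndex K)) (hi : Smooth y K.index) :
    HasHall y G := by
  have h1 : Nat.card (T.subgroupOf K) = Nat.card T :=
    Nat.card_congr (Subgroup.subgroupOfEquivOfLe hTK).toEquiv
  have h2 : Nat.Coprime (Nat.card (T.subgroupOf K)) (T.subgroupOf K).index := by
    rw [h1]
    exact coprime_of hT hK
  obtain ⟨C, hC⟩ := Subgroup.exists_right_complement'_of_coprime h2
  have h3 : Nat.card C = T.relIndex K := by
    have h5 := hC.card_mul_card
    have h6 := (T.subgroupOf K).card_mul_index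
    have h7 : 0 < Nat.card (T.subgroupOf K) := Nat.card_pos
    rw [← h6] at h5
    exact Nat.eq_of_mul_eq_mul_left h7 h5
  have h4 : C.index = Nat.card T := by
    have h5 := hC.card_mul_card
    have h6 := C.card_mul_index
    have h7 : 0 < Nat.card C := Nat.card_pos
    rw [← h6, h1, mul_comm] at h5
    exact (Nat.eq_of_mul_eq_mul_left h7 h5).symm
  refine ⟨C.map K.subtype, ?_, ?_⟩
  · have : Nat.card (C.map K.subtype) = Nat.card C :=
      (Nat.card_congr (C.equivMapOfInjective K.subtype K.subtype_injective).toEquiv).symm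
    rw [this, h3]
    exact hK
  · have h8 : (C.map K.subtype).index = C.index * K.index := by
      have h9 := Subgroup.relIndex_mul_index (H := C.map K.subtype) (K := K) (by
        rintro _ ⟨x, _, rfl⟩
        exact x.2)
      rw [← h9]
      congr 1
      rw [Subgroup.relIndex]
      congr 1
      exact Subgroup.comap_map_eq_self_of_injective K.subtype_injective C
    rw [h8, h4]
    exact hT.mul hi

/-- the elements of a commutative normal subgroup whose order is smooth -/
def smoothPart (y : ℕ) {G : Type u} [Group G] (N : Subgroup G)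
    (hN : ∀ a ∈ N, ∀ b ∈ N, a * b = b * a) : Subgroup G where
  carrier := {a | a ∈ N ∧ ∃ m : ℕ, m ≠ 0 ∧ Smooth y m ∧ a ^ m = 1}
  one_mem' := ⟨N.one_mem, 1, one_ne_zero, fun p hp h => absurd (Nat.dvd_one.1 h) hp.one_lt.ne', by simp⟩
  mul_mem' := by
    rintro a b ⟨ha, m, hm0, hm, h1⟩ ⟨hb, k, hk0, hk, h2⟩
    refine ⟨N.mul_mem ha hb, m * k, mul_ne_zero hm0 hk0, hm.mul hk, ?_⟩
    have hc : Commute a b := hN a ha b hb
    rw [hc.mul_pow, pow_mul, h1, one_pow, one_mul, mul_comm m k, pow_mul, h2, one_pow]
  inv_mem' := by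
    rintro a ⟨ha, m, hm0, hm, h1⟩
    exact ⟨N.inv_mem ha, m, hm0, hm, by rw [inv_pow, h1, inv_one]⟩

theorem smoothPart_normal {y : ℕ} {G : Type u} [Group G] (N : Subgroup G) [hn : N.Normal]
    (hN : ∀ a ∈ N, ∀ b ∈ N, a * b = b * a) : (smoothPart y N hN).Normal := by
  constructor
  rintro a ⟨ha, m, hm0, hm, h1⟩ g
  refine ⟨hn.conj_mem a ha g, m, hm0, hm, ?_⟩
  rw [conj_pow, h1]
  group

theorem smoothPart_card {y : ℕ} {G : Type u} [Group G] [Finite G] (N : Subgroup G)
    (hN : ∀ a ∈ N, ∀ b ∈ N, a * b = b * a) : Smooth y (Nat.card (smoothPart y N hN)) := by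
  intro p hp hd
  haveI := Fact.mk hp
  obtain ⟨a, ha⟩ := exists_prime_orderOf_dvd_card' p hd
  obtain ⟨hN', m, hm0, hm, h1⟩ := a.2
  have h2 : orderOf a ∣ m := by
    rw [orderOf_dvd_iff_pow_eq_one]
    exact Subtype.ext (by simpa using h1)
  exact hm p hp (ha ▸ h2)

theorem smoothPart_le {y : ℕ} {G : Type u} [Group G] (N : Subgroup G)
    (hN : ∀ a ∈ N, ∀ b ∈ N, a * b = b * a) : smoothPart y N hN ≤ N := fun _ h => h.1

theorem smoothPart_relIndex {y : ℕ} {G : Type u} [Group G] [Finite G] (N : Subgroup G) [N.Normal]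
    (hN : ∀ a ∈ N, ∀ b ∈ N, a * b = b * a) : Rough y ((smoothPart y N hN).relIndex N) := by
  intro p hp hd
  by_contra hpy
  push Not at hpy
  haveI := Fact.mk hp
  haveI := smoothPart_normal (y := y) N hN
  have h1 : p ∣ Nat.card (N ⧸ (smoothPart y N hN).subgroupOf N) := hd
  obtain ⟨q, hq⟩ := exists_prime_orderOf_dvd_card' p h1
  obtain ⟨a, rfl⟩ := QuotientGroup.mk_surjective q
  have h2 : (QuotientGroup.mk a : N ⧸ (smoothPart y N hN).subgroupOf N) ^ p = 1 := by
    rw [← hq]
    exact pow_orderOf_eq_one _
  rw [← QuotientGroup.mk_pow, QuotientGroup.eq_one_iff, Subgroup.mem_subgroupOf] at h2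
  obtain ⟨-, m, hm0, hm, h3⟩ := h2
  have h4 : (a : G) ∈ smoothPart y N hN := by
    refine ⟨a.2, p * m, mul_ne_zero hp.ne_zero hm0, ?_, ?_⟩
    · intro r hr hrd
      rcases hr.dvd_mul.1 hrd with h | h
      · rw [(Nat.prime_dvd_prime_iff_eq hr hp).1 h]
        exact hpy
      · exact hm r hr h
    · rw [pow_mul]
      simpa using h3
  have h5 : (QuotientGroup.mk a : N ⧸ (smoothPart y N hN).subgroupOf N) = 1 := by
    rw [QuotientGroup.eq_one_iff, Subgroup.mem_subgroupOf]
    exact h4
  rw [h5, orderOf_one] at hq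
  exact hp.one_lt.ne' hq.symm

theorem Built.hall {y : ℕ} {G : Type u} [Group G] (h : Built y G) (hf : Finite G) :
    HasHall y G := by
  induction h with
  | triv G h =>
    refine ⟨⊤, ?_, ?_⟩
    · intro p hp hd
      have : Nat.card (⊤ : Subgroup G) = 1 := by
        rw [Nat.card_eq_one_iff_unique]
        exact ⟨⟨fun a b => Subtype.ext (Subsingleton.elim _ _)⟩, ⟨1⟩⟩
      rw [this] at hd
      exact absurd (Nat.dvd_one.1 hd) hp.one_lt.ne'
    · intro p hp hd
      rw [Subgroup.index_top] at hd
      exact absurd (Nat.dvd_one.1 hd) hp.one_lt.ne'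
  | ext G N hN h ih =>
    obtain ⟨H, hH1, hH2⟩ := ih (Quotient.finite _)
    set K := H.comap (QuotientGroup.mk' N) with hK
    have hNK : N ≤ K := by
      intro x hx
      rw [hK, Subgroup.mem_comap]
      have : QuotientGroup.mk' N x = 1 := (QuotientGroup.eq_one_iff x).2 hx
      rw [this]
      exact H.one_mem
    have hKi : K.index = H.index := Subgroup.index_comap_of_surjective H (QuotientGroup.mk'_surjective N)
    have hKr : N.relIndex K = Nat.card H := by
      have h1 : N.relIndex K * K.index = N.index := Subgroup.relIndex_mul_index hNK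
      have h2 : Nat.card H * H.index = N.index := by
        rw [Subgroup.card_mul_index]
        rfl
      rw [hKi, ← h2] at h1
      have h3 : 0 < H.index := Nat.pos_of_ne_zero Subgroup.index_ne_zero_of_finite
      exact Nat.eq_of_mul_eq_mul_right h3 h1
    rcases hN with hN | hN
    · haveI := smoothPart_normal (y := y) N hN
      refine hall_lift (smoothPart y N hN) K ((smoothPart_le N hN).trans hNK) (smoothPart_card N hN) ?_
        (hKi ▸ hH2)
      have h1 : (smoothPart y N hN).relIndex N * N.relIndex K = (smoothPart y N hN).relIndex K :=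
        Subgroup.relIndex_mul_relIndex _ _ _ (smoothPart_le N hN) hNK
      rw [← h1, hKr]
      exact (smoothPart_relIndex N hN).mul hH1
    · exact hall_lift N K hNK hN (hKr ▸ hH1) (hKi ▸ hH2)

/-- finite solvable groups are in the class -/
theorem built_of_solvable (y : ℕ) : ∀ (n : ℕ) (G : Type u) [Group G] [Finite G],
    Nat.card G = n → Group.IsSolvable G → Built y G := by
  intro n
  induction n using Nat.strong_induction_on with
  | _ n ih =>
    intro G _ _ hn hs
    rcases subsingleton_or_nontrivial G with h | h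
    · exact Built.triv G h
    · have hex : ∃ k, derivedSeries G k = ⊥ := Group.IsSolvable.solvable
      classical
      obtain ⟨k, hk, hmin⟩ : ∃ k, derivedSeries G k = ⊥ ∧ ∀ j < k, derivedSeries G j ≠ ⊥ :=
        ⟨Nat.find hex, Nat.find_spec hex, fun j hj => Nat.find_min hex hj⟩
      obtain ⟨j, rfl⟩ : ∃ j, k = j + 1 := by
        refine ⟨k - 1, ?_⟩
        have : k ≠ 0 := by
          rintro rfl
          rw [derivedSeries_zero] at hk
          exact top_ne_bot hk
        omega
      have hA : ∀ a ∈ derivedSeries G j, ∀ b ∈ derivedSeries G j, a * b = b * a := by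
        intro a ha b hb
        have h1 : ⁅a, b⁆ ∈ derivedSeries G (j + 1) := by
          rw [derivedSeries_succ]
          exact Subgroup.commutator_mem_commutator ha hb
        rw [hk, Subgroup.mem_bot] at h1
        exact commutatorElement_eq_one_iff_mul_comm.1 h1
      have hne := hmin j (Nat.lt_succ_self j)
      refine Built.ext G (derivedSeries G j) (Or.inl hA) (ih _ ?_ _ rfl inferInstance)
      rw [← hn]
      have h1 := (derivedSeries G j).card_eq_card_quotient_mul_card_subgroup
      have h2 : 1 < Nat.card (derivedSeries G j) := Subgroup.one_lt_card_iff_ne_bot _ |>.2 hne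
      have h3 : 0 < Nat.card (G ⧸ derivedSeries G j) := Nat.card_pos
      rw [h1]
      nlinarith

end Pool.Agent.U166.GS
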