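import Pool.Agent.U166.GS.Hall
import Pool.Agent.H268R2.LB.Final

/-!
# Z-groups satisfy an alternating law; groups of rough order act freely
-/

set_option autoImplicit false

open scoped commutatorElement

namespace Pool.Agent.U166.GS

open Pool.Agent.H268R2.LB

universe u

def pat : List (Fin 3) := [0,1,2,0,1,2, 0,2,1,0,2,1, 2,1,0,2,1,0, 1,2,0,1,2,0]

theorem altLaw_z {A : Type u} [Group A] [Finite A] [IsZGroup A] : AltLaw A 3 12 := by
  refine ⟨by norm_num, fun j => pat.getD j 0, ?_, ?_⟩
  · have : ∀ j < 23, pat.getD j 0 ≠ pat.getD (j + 1) 0 := by decide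
    intro j hj
    exact this j (by omega)
  · intro g
    have hcyc := IsZGroup.isCyclic_commutator A
    have hcomm : ∀ a b : A, a ∈ commutator A → b ∈ commutator A → a * b = b * a := by
      intro a b ha hb
      obtain ⟨z, hz⟩ := hcyc.exists_generator
      obtain ⟨i, hi⟩ := Subgroup.mem_zpowers_iff.1 (hz ⟨a, ha⟩)
      obtain ⟨j, hj⟩ := Subgroup.mem_zpowers_iff.1 (hz ⟨b, hb⟩)
      have : (⟨a, ha⟩ : commutator A) * ⟨b, hb⟩ = ⟨b, hb⟩ * ⟨a, ha⟩ := by
        rw [← hi, ← hj, ← zpow_add, ← zpow_add, add_comm]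
      exact congrArg Subtype.val this
    have hc : ∀ x y z : A, x * y⁻¹ * (z * x⁻¹) * (y * z⁻¹) ∈ commutator A := by
      intro x y z
      have h1 : x * y⁻¹ * (z * x⁻¹) * (y * z⁻¹) = ⁅x * y⁻¹, z * x⁻¹⁆ := by
        rw [commutatorElement_def]
        group
      rw [h1, commutator_def]
      exact Subgroup.commutator_mem_commutator (Subgroup.mem_top _) (Subgroup.mem_top _)
    have h2 := hcomm _ _ (hc (g 0) (g 1) (g 2)) (hc (g 0) (g 2) (g 1))
    have h3 : ((List.range 12).map fun j => g (pat.getD (2 * j) 0) * (g (pat.getD (2 * j + 1) 0))⁻¹).prod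
        = (g 0 * (g 1)⁻¹ * (g 2 * (g 0)⁻¹) * (g 1 * (g 2)⁻¹)) *
          (g 0 * (g 2)⁻¹ * (g 1 * (g 0)⁻¹) * (g 2 * (g 1)⁻¹)) *
          (g 0 * (g 1)⁻¹ * (g 2 * (g 0)⁻¹) * (g 1 * (g 2)⁻¹))⁻¹ *
          (g 0 * (g 2)⁻¹ * (g 1 * (g 0)⁻¹) * (g 2 * (g 1)⁻¹))⁻¹ := by
      simp only [List.range_succ, List.range_zero, List.nil_append, List.map_append, List.map_cons,
        List.map_nil, List.prod_append, List.prod_cons, List.prod_nil, mul_one, pat]
      simp only [List.getD_cons_zero, List.getD_cons_succ, Nat.reduceMul, Nat.reduceAdd,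
        mul_zero, zero_add]
      group
    rw [h3, h2]
    group

section free

variable {V : Type u} {X : SimpleGraph V}

theorem pow_apply (a : X ≃g X) (n : ℕ) (u : V) : (a ^ n) u = a^[n] u := by
  induction n with
  | zero => rfl
  | succ n ih =>
    rw [pow_succ', Function.iterate_succ', Function.comp, ← ih]
    rfl

theorem fix_neighbor [Finite V] (a : X ≃g X) {y : ℕ} (h0 : 0 < orderOf a) (ha : Rough y (orderOf a))
    {v : V} (hv : (X.neighborSet v).ncard ≤ y) (hav : a v = v) {u : V} (hu : X.Adj v u) :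
    a u = u := by
  have hper : Function.IsPeriodicPt a (orderOf a) u := by
    show a^[orderOf a] u = u
    rw [← pow_apply, pow_orderOf_eq_one]
    rfl
  have hdvd := hper.minimalPeriod_dvd
  have hpos : 0 < Function.minimalPeriod a u := hper.minimalPeriod_pos h0
  have hadj : ∀ i : ℕ, X.Adj v (a^[i] u) := by
    intro i
    induction i with
    | zero => exact hu
    | succ i ih =>
      rw [Function.iterate_succ', Function.comp]
      have := a.map_adj_iff.2 ih
      rwa [hav] at this
  have hle : Function.minimalPeriod a u ≤ y := by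
    have h1 : Set.InjOn (fun i => a^[i] u) (Set.Iio (Function.minimalPeriod a u)) :=
      Function.iterate_injOn_Iio_minimalPeriod
    have h2 : ((fun i => a^[i] u) '' (Set.Iio (Function.minimalPeriod a u))).ncard =
        Function.minimalPeriod a u := by
      rw [Set.ncard_image_of_injOn h1, ← Finset.coe_Iio, Set.ncard_coe_finset, Nat.card_Iio]
    rw [← h2]
    refine (Set.ncard_le_ncard ?_ (Set.toFinite _)).trans hv
    rintro _ ⟨i, -, rfl⟩
    exact hadj i
  have h1 : Function.minimalPeriod a u = 1 := by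
    by_contra hne
    have hp := Nat.minFac_prime hne
    have h2 := ha _ hp ((Nat.minFac_dvd _).trans hdvd)
    have h3 := Nat.minFac_le hpos
    omega
  exact Function.minimalPeriod_eq_one_iff_isFixedPt.1 h1

theorem eq_one_of_fix [Finite V] (hc : X.Connected) (a : X ≃g X) {y : ℕ} (h0 : 0 < orderOf a)
    (ha : Rough y (orderOf a)) (hy : ∀ v, (X.neighborSet v).ncard ≤ y) {v : V} (hav : a v = v) :
    a = 1 := by
  have h1 : ∀ (u w : V), X.Walk u w → a u = u → a w = w := by
    intro u w p
    induction p with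
    | nil => exact id
    | cons h p ih => exact fun hu => ih (fix_neighbor a h0 ha (hy _) hu h)
  refine RelIso.ext fun w => ?_
  obtain ⟨p⟩ := hc.preconnected v w
  exact h1 v w p hav

end free

end Pool.Agent.U166.GS
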