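import Pool.Agent.U166.GS.Hall

/-!
# Chunikhin's theorem: Hall subgroups of groups without factors divisible by two large primes
-/

set_option autoImplicit false

namespace Pool.Agent.U166.GS

universe u

/-- `Sel y G`: `G` is obtained from the trivial group by repeated extensions with kernels which are
commutative, or whose order has at most one prime factor larger than `y`. -/
inductive Sel (y : ℕ) : (G : Type u) → [Group G] → Prop
  | triv (G : Type u) [Group G] (h : Subsingleton G) : Sel y G
  | ext (G : Type u) [Group G] (N : Subgroup G) [N.Normal]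
      (hN : (∀ a ∈ N, ∀ b ∈ N, a * b = b * a) ∨ ∀ p q : ℕ, p.Prime → q.Prime → y < p → y < q →
        p ∣ Nat.card N → q ∣ Nat.card N → p = q)
      (h : Sel y (G ⧸ N)) : Sel y G

theorem Sel.mono {y z : ℕ} (hyz : y ≤ z) {G : Type u} [Group G] (h : Sel y G) : Sel z G := by
  induction h with
  | triv G h => exact Sel.triv G h
  | ext G N hN h ih =>
    exact Sel.ext G N (hN.imp id fun h p q hp hq h1 h2 => h p q hp hq (by omega) (by omega)) ih

theorem Built.sel {y : ℕ} {G : Type u} [Group G] (h : Built y G) : Sel y G := by
  induction h with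
  | triv G h => exact Sel.triv G h
  | ext G N hN h ih =>
    refine Sel.ext G N (hN.imp id fun h p q hp hq h1 h2 h3 h4 => ?_) ih
    have := h p hp h3
    omega

theorem HasHall.of_subgroup {y : ℕ} {G : Type u} [Group G] (K : Subgroup G) (hK : Smooth y K.index)
    (h : HasHall y K) : HasHall y G := by
  obtain ⟨C, h1, h2⟩ := h
  refine ⟨C.map K.subtype, ?_, ?_⟩
  · have : Nat.card (C.map K.subtype) = Nat.card C :=
      (Nat.card_congr (C.equivMapOfInjective K.subtype K.subtype_injective).toEquiv).symm
    rw [this]
    exact h1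
  · have h8 : (C.map K.subtype).index = C.index * K.index := by
      have h9 := Subgroup.relIndex_mul_index (H := C.map K.subtype) (K := K) (by
        rintro _ ⟨x, _, rfl⟩
        exact x.2)
      rw [← h9]
      congr 1
      rw [Subgroup.relIndex]
      congr 1
      exact Subgroup.comap_map_eq_self_of_injective K.subtype_injective C
    rw [h8]
    exact h2.mul hK

theorem HasHall.of_rough_kernel {y : ℕ} {G : Type u} [Group G] [Finite G] (P : Subgroup G) [P.Normal]
    (hP : Rough y (Nat.card P)) (h : HasHall y (G ⧸ P)) : HasHall y G := by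
  obtain ⟨H, h1, h2⟩ := h
  set K := H.comap (QuotientGroup.mk' P) with hK
  have hNK : P ≤ K := by
    intro x hx
    rw [hK, Subgroup.mem_comap]
    have : QuotientGroup.mk' P x = 1 := (QuotientGroup.eq_one_iff x).2 hx
    rw [this]
    exact H.one_mem
  have hKi : K.index = H.index := Subgroup.index_comap_of_surjective H (QuotientGroup.mk'_surjective P)
  have hKr : P.relIndex K = Nat.card H := by
    have h1 : P.relIndex K * K.index = P.index := Subgroup.relIndex_mul_index hNK
    have h2 : Nat.card H * H.index = P.index := by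
      rw [Subgroup.card_mul_index]
      rfl
    rw [hKi, ← h2] at h1
    have h3 : 0 < H.index := Nat.pos_of_ne_zero Subgroup.index_ne_zero_of_finite
    exact Nat.eq_of_mul_eq_mul_right h3 h1
  refine ⟨K, ?_, hKi ▸ h2⟩
  have h3 : Nat.card K = Nat.card P * P.relIndex K := by
    have h4 : Nat.card (P.subgroupOf K) = Nat.card P :=
      Nat.card_congr (Subgroup.subgroupOfEquivOfLe hNK).toEquiv
    rw [← h4, Subgroup.relIndex, Subgroup.card_mul_index]
  rw [h3, hKr]
  exact hP.mul h1

theorem HasHall.of_smooth_kernel {y : ℕ} {G : Type u} [Group G] [Finite G] (T : Subgroup G) [T.Normal]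
    (hT : Smooth y (Nat.card T)) (hi : Rough y T.index) : HasHall y G := by
  have h2 : Nat.Coprime (Nat.card T) T.index := coprime_of hT hi
  obtain ⟨C, hC⟩ := Subgroup.exists_right_complement'_of_coprime h2
  have h5 := hC.card_mul_card
  have h3 : Nat.card C = T.index := by
    have h6 := T.card_mul_index
    have h7 : 0 < Nat.card T := Nat.card_pos
    rw [← h6] at h5
    exact Nat.eq_of_mul_eq_mul_left h7 h5
  have h4 : C.index = Nat.card T := by
    have h6 := C.card_mul_index
    have h7 : 0 < Nat.card C := Nat.card_pos
    rw [← h6, mul_comm] at h5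
    exact (Nat.eq_of_mul_eq_mul_left h7 h5).symm
  exact ⟨C, h3 ▸ hi, h4 ▸ hT⟩

/-- the step of Chunikhin's theorem -/
theorem HasHall.of_one_prime {y : ℕ} {G : Type u} [Group G] [Finite G] (N : Subgroup G) [N.Normal]
    (hi : Rough y N.index) (hN : ∀ p q : ℕ, p.Prime → q.Prime → y < p → y < q →
      p ∣ Nat.card N → q ∣ Nat.card N → p = q) : HasHall y G := by
  by_cases hs : ∀ p : ℕ, p.Prime → p ∣ Nat.card N → p ≤ y
  · exact HasHall.of_smooth_kernel N hs hi
  push Not at hs
  obtain ⟨p, hp, hpN, hyp⟩ := hs
  haveI := Fact.mk hp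
  obtain ⟨P⟩ : Nonempty (Sylow p N) := inferInstance
  set P' : Subgroup G := (P : Subgroup N).map N.subtype with hP'
  set M : Subgroup G := Subgroup.normalizer (P' : Set G) with hM
  have hMN : M ⊔ N = ⊤ := by
    have := Sylow.normalizer_sup_eq_top (N := N) P
    rw [hM, hP']
    exact this
  have hP'N : P' ≤ N := by
    rintro _ ⟨x, _, rfl⟩
    exact x.2
  have hP'M : P' ≤ M := Subgroup.le_normalizer
  have hcP : Nat.card P' = Nat.card P :=
    (Nat.card_congr ((P : Subgroup N).equivMapOfInjective N.subtype N.subtype_injective).toEquiv).symm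
  have hPsm : Smooth y (P'.relIndex N) := by
    intro q hq hd
    by_contra hqy
    push Not at hqy
    have h1 : P'.relIndex N = (P : Subgroup N).index := by
      rw [Subgroup.relIndex]
      congr 1
      exact Subgroup.comap_map_eq_self_of_injective N.subtype_injective _
    rw [h1] at hd
    have h2 : q ∣ Nat.card N := hd.trans (Subgroup.index_dvd_card _)
    have h3 := hN q p hq hp hqy hyp h2 hpN
    subst h3
    exact P.not_dvd_index hd
  have hNM : N.relIndex M = N.index := by
    rw [← Subgroup.relIndex_top_right, ← hMN, Subgroup.relIndex_sup_right]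
  have hcM : Nat.card (N.subgroupOf M) * N.index = Nat.card M := by
    rw [← hNM, Subgroup.relIndex, Subgroup.card_mul_index]
  have hcT : ∃ r, Nat.card (N.subgroupOf M) = Nat.card P' * r := by
    have h1 : P'.subgroupOf M ≤ N.subgroupOf M := fun x hx => hP'N hx
    have h2 := Subgroup.card_dvd_of_le h1
    have h3 : Nat.card (P'.subgroupOf M) = Nat.card P' :=
      Nat.card_congr (Subgroup.subgroupOfEquivOfLe hP'M).toEquiv
    rw [h3] at h2
    exact h2
  obtain ⟨r, hr⟩ := hcT
  have hcN : Nat.card P' * P'.relIndex N = Nat.card N := by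
    have h3 : Nat.card (P'.subgroupOf N) = Nat.card P' :=
      Nat.card_congr (Subgroup.subgroupOfEquivOfLe hP'N).toEquiv
    rw [← h3, Subgroup.relIndex, Subgroup.card_mul_index]
  have hi0 : 0 < N.index := Nat.pos_of_ne_zero Subgroup.index_ne_zero_of_finite
  have hP0 : 0 < Nat.card P' := Nat.card_pos
  have hrel : M.index * r = P'.relIndex N := by
    have h1 : Nat.card M * M.index = Nat.card N * N.index := by
      rw [Subgroup.card_mul_index, Subgroup.card_mul_index]
    rw [← hcM, hr, ← hcN] at h1
    have h2 : (Nat.card P' * N.index) * (M.index * r) = (Nat.card P' * N.index) * P'.relIndex N := by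
      calc _ = Nat.card P' * r * N.index * M.index := by ring
        _ = _ := h1
        _ = _ := by ring
    exact Nat.eq_of_mul_eq_mul_left (Nat.mul_pos hP0 hi0) h2
  have hMsm : Smooth y M.index := hPsm.of_dvd (Dvd.intro _ hrel)
  have hrsm : Smooth y r := hPsm.of_dvd (Dvd.intro_left _ hrel)
  refine HasHall.of_subgroup M hMsm ?_
  have hn : (P'.subgroupOf M).Normal := by
    rw [hM]
    infer_instance
  have h3 : Nat.card (P'.subgroupOf M) = Nat.card P' :=
    Nat.card_congr (Subgroup.subgroupOfEquivOfLe hP'M).toEquiv
  refine HasHall.of_rough_kernel (P'.subgroupOf M) ?_ ?_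
  · intro q hq hd
    rw [h3, hcP] at hd
    obtain ⟨k, hk⟩ := IsPGroup.iff_card.1 P.isPGroup'
    have h4 : Nat.card P = p ^ k := hk
    rw [h4] at hd
    have := (Nat.prime_dvd_prime_iff_eq hq hp).1 (hq.dvd_of_dvd_pow hd)
    omega
  · have hsur := QuotientGroup.mk'_surjective (P'.subgroupOf M)
    have hker : (QuotientGroup.mk' (P'.subgroupOf M)).ker ≤ N.subgroupOf M := by
      rw [QuotientGroup.ker_mk']
      exact fun x hx => hP'N hx
    have hTn : ((N.subgroupOf M).map (QuotientGroup.mk' (P'.subgroupOf M))).Normal :=
      Subgroup.Normal.map inferInstance _ hsur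
    have hidx : ((N.subgroupOf M).map (QuotientGroup.mk' (P'.subgroupOf M))).index = N.index := by
      rw [Subgroup.index_map_eq _ hsur hker, ← hNM]
      rfl
    refine HasHall.of_smooth_kernel ((N.subgroupOf M).map (QuotientGroup.mk' (P'.subgroupOf M))) ?_ ?_
    · have h5 := ((N.subgroupOf M).map (QuotientGroup.mk' (P'.subgroupOf M))).card_mul_index
      rw [hidx] at h5
      have h6 := (P'.subgroupOf M).card_eq_card_quotient_mul_card_subgroup
      rw [← h5, h3, ← hcM, hr] at h6
      have h7 : Nat.card ((N.subgroupOf M).map (QuotientGroup.mk' (P'.subgroupOf M))) = r := by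
        have h8 : (Nat.card P' * N.index) * r = (Nat.card P' * N.index) *
            Nat.card ((N.subgroupOf M).map (QuotientGroup.mk' (P'.subgroupOf M))) := by
          calc _ = Nat.card P' * r * N.index := by ring
            _ = _ := h6
            _ = _ := by ring
        exact (Nat.eq_of_mul_eq_mul_left (Nat.mul_pos hP0 hi0) h8).symm
      rw [h7]
      exact hrsm
    · rw [hidx]
      exact hi

theorem Sel.hall {y : ℕ} {G : Type u} [Group G] (h : Sel y G) (hf : Finite G) :
    HasHall y G := by
  induction h with
  | triv G h =>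
    exact (Built.triv G h).hall hf
  | ext G N hN h ih =>
    obtain ⟨H, hH1, hH2⟩ := ih (Quotient.finite _)
    set K := H.comap (QuotientGroup.mk' N) with hK
    have hNK : N ≤ K := by
      intro x hx
      rw [hK, Subgroup.mem_comap]
      have : QuotientGroup.mk' N x = 1 := (QuotientGroup.eq_one_iff x).2 hx
      rw [this]
      exact H.one_mem
    have hKi : K.index = H.index := Subgroup.index_comap_of_surjective H (QuotientGroup.mk'_surjective N)
    have hKr : N.relIndex K = Nat.card H := by
      have h1 : N.relIndex K * K.index = N.index := Subgroup.relIndex_mul_index hNK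
      have h2 : Nat.card H * H.index = N.index := by
        rw [Subgroup.card_mul_index]
        rfl
      rw [hKi, ← h2] at h1
      have h3 : 0 < H.index := Nat.pos_of_ne_zero Subgroup.index_ne_zero_of_finite
      exact Nat.eq_of_mul_eq_mul_right h3 h1
    rcases hN with hN | hN
    · haveI := smoothPart_normal (y := y) N hN
      refine hall_lift (smoothPart y N hN) K ((smoothPart_le N hN).trans hNK) (smoothPart_card N hN) ?_
        (hKi ▸ hH2)
      have h1 : (smoothPart y N hN).relIndex N * N.relIndex K = (smoothPart y N hN).relIndex K :=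
        Subgroup.relIndex_mul_relIndex _ _ _ (smoothPart_le N hN) hNK
      rw [← h1, hKr]
      exact (smoothPart_relIndex N hN).mul hH1
    · refine HasHall.of_subgroup K (hKi ▸ hH2) ?_
      refine HasHall.of_one_prime (N.subgroupOf K) ?_ ?_
      · have : (N.subgroupOf K).index = Nat.card H := hKr
        rw [this]
        exact hH1
      · have h3 : Nat.card (N.subgroupOf K) = Nat.card N :=
          Nat.card_congr (Subgroup.subgroupOfEquivOfLe hNK).toEquiv
        rw [h3]
        exact hN

end Pool.Agent.U166.GS
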